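import Pool.Agent.N918.MS.Base

/-! A power saving is more than a saving of all powers of the logarithm. -/

set_option autoImplicit false

namespace Pool.Agent.L7h79.Gen

open Finset
open Pool.Agent.N918.MS (AlmostAlways)

open scoped Classical in
/-- a power saving is more than all powers of the logarithm -/
lemma almostAlways_of {P : ℤ → Prop} {E : Set ℕ} (hP : ∀ k : ℤ, 1 ≤ k.natAbs → k.natAbs ∉ E → P k) {θ K : ℝ} (hθ0 : 0 ≤ θ)
    (hθ : θ < 1)
    (hE : ∀ X : ℕ, 1 ≤ X → (((Icc 1 X).filter (fun v => v ∈ E)).card : ℝ) ≤ K * (X : ℝ) ^ θ) : AlmostAlways P := by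
  intro U
  -- `2 K X ^ θ + 1 ≤ X / (log X) ^ U`
  obtain ⟨η, hη⟩ : ∃ η : ℝ, η = (1 - θ) / 2 := ⟨_, rfl⟩
  have hη0 : 0 < η := by rw [hη]; linarith
  have hlog : Filter.Tendsto (fun x : ℝ => Real.log x ^ U / x ^ η) Filter.atTop (nhds 0) := by
    have := isLittleO_log_rpow_rpow_atTop (s := η) (U : ℝ) hη0
    have h2 := this.tendsto_div_nhds_zero
    refine h2.congr fun x => ?_
    rw [Real.rpow_natCast]
  have hpow : Filter.Tendsto (fun x : ℝ => x ^ η) Filter.atTop Filter.atTop := tendsto_rpow_atTop hη0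
  have ev : ∀ᶠ X : ℕ in Filter.atTop, Real.log X ^ U / (X : ℝ) ^ η < 1 ∧ 2 * |K| + 1 ≤ (X : ℝ) ^ η ∧ 3 ≤ X :=
    ((tendsto_natCast_atTop_atTop.eventually (hlog.eventually_lt_const one_pos)).and
      ((tendsto_natCast_atTop_atTop.eventually (hpow.eventually_ge_atTop (2 * |K| + 1))).and
        (Filter.eventually_ge_atTop 3)))
  obtain ⟨X₀, hX₀⟩ := Filter.eventually_atTop.1 ev
  refine ⟨X₀, fun X hX => ?_⟩
  obtain ⟨h1, h2, h3⟩ := hX₀ X hX
  have hX1 : (1 : ℝ) ≤ X := by exact_mod_cast (show 1 ≤ X by omega)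
  have hX0 : (0 : ℝ) < X := by linarith
  have hsub : {k : ℤ | k ∈ Set.Icc (-(X : ℤ)) X ∧ ¬ P k} ⊆
      ((insert 0 (((Icc 1 X).filter (fun v => v ∈ E)).image (fun v : ℕ => (v : ℤ)) ∪
        ((Icc 1 X).filter (fun v => v ∈ E)).image (fun v : ℕ => -(v : ℤ))) : Finset ℤ) : Set ℤ) := by
    rintro k ⟨hk, hk2⟩
    rw [Set.mem_Icc] at hk
    rw [mem_coe, mem_insert, mem_union, mem_image, mem_image]
    rcases Nat.eq_zero_or_pos k.natAbs with h0 | h0
    · left; exact Int.natAbs_eq_zero.1 h0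
    · right
      have hkE : k.natAbs ∈ E := by
        by_contra hcon
        exact hk2 (hP k h0 hcon)
      have hmem : k.natAbs ∈ (Icc 1 X).filter (fun v => v ∈ E) := by
        rw [mem_filter, mem_Icc]
        exact ⟨⟨h0, by omega⟩, hkE⟩
      rcases Int.natAbs_eq k with h4 | h4
      · left; exact ⟨_, hmem, h4.symm⟩
      · right; exact ⟨_, hmem, h4.symm⟩
  have h5 := Set.ncard_le_ncard hsub (finite_toSet _)
  rw [Set.ncard_coe_finset] at h5
  have h6 := (card_insert_le (0 : ℤ) (((Icc 1 X).filter (fun v => v ∈ E)).image (fun v : ℕ => (v : ℤ)) ∪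
        ((Icc 1 X).filter (fun v => v ∈ E)).image (fun v : ℕ => -(v : ℤ)))).trans
        (Nat.add_le_add_right ((card_union_le _ _).trans (Nat.add_le_add card_image_le card_image_le)) 1)
  have h7 : ({k : ℤ | k ∈ Set.Icc (-(X : ℤ)) X ∧ ¬ P k}.ncard : ℝ) ≤
      2 * (((Icc 1 X).filter (fun v => v ∈ E)).card : ℝ) + 1 := by
    have := h5.trans h6
    have h8 : (({k : ℤ | k ∈ Set.Icc (-(X : ℤ)) X ∧ ¬ P k}.ncard : ℕ) : ℝ) ≤
      ((((Icc 1 X).filter (fun v => v ∈ E)).card + ((Icc 1 X).filter (fun v => v ∈ E)).card + 1 : ℕ) : ℝ) := by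
      exact_mod_cast this
    refine h8.trans (le_of_eq ?_)
    push_cast
    ring
  refine h7.trans ?_
  have h9 := hE X (by omega)
  have h10 : (X : ℝ) ^ θ * (X : ℝ) ^ η * (X : ℝ) ^ η = X := by
    rw [← Real.rpow_add hX0, ← Real.rpow_add hX0]
    have : θ + η + η = 1 := by rw [hη]; ring
    rw [this, Real.rpow_one]
  have hl : 0 < Real.log X ^ U := pow_pos (Real.log_pos (by exact_mod_cast (show 1 < X by omega))) _
  rw [le_div_iff₀ hl]
  have hp0 : 0 < (X : ℝ) ^ η := Real.rpow_pos_of_pos hX0 _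
  have h11 : Real.log X ^ U ≤ (X : ℝ) ^ η := by
    rw [div_lt_one hp0] at h1
    exact h1.le
  have h12 : 1 ≤ (X : ℝ) ^ θ := Real.one_le_rpow hX1 hθ0
  have h13 : 2 * (((Icc 1 X).filter (fun v => v ∈ E)).card : ℝ) + 1 ≤ (2 * |K| + 1) * (X : ℝ) ^ θ := by
    have : K * (X : ℝ) ^ θ ≤ |K| * (X : ℝ) ^ θ := mul_le_mul_of_nonneg_right (le_abs_self K) (by linarith)
    nlinarith
  calc (2 * (((Icc 1 X).filter (fun v => v ∈ E)).card : ℝ) + 1) * Real.log X ^ U
      ≤ ((X : ℝ) ^ η * (X : ℝ) ^ θ) * (X : ℝ) ^ η := by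
        refine mul_le_mul (h13.trans (mul_le_mul_of_nonneg_right h2 (by linarith))) h11 hl.le (by positivity)
    _ = X := by rw [mul_comm ((X : ℝ) ^ η)]; exact h10

end Pool.Agent.L7h79.Gen
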